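import Pool.Agent.Dimer3D.BoxEmb

/-!
# MP_6ab5c6_co, Q1 for boxes with two fixed sides

Any two dimer configurations of the `j × m × n` box are joined by swaps along alternating cycles
of length at most `(jm)²`, for every `n`.
-/

namespace Pool.Agent.Results.MP_6ab5c6_co.FixedSection

open Pool.Agent.Dimer3D

theorem result (j m n : ℕ) (τ τ' : Set (Sym2 (ℤ × ℤ × ℤ)))
    (h : IsConfig Adj3 (Box j m n) τ) (h' : IsConfig Adj3 (Box j m n) τ') :
    Joined Adj3 (Box j m n) ((j * m) ^ 2) τ τ' :=
  box_joined j m n τ τ' h h'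

end Pool.Agent.Results.MP_6ab5c6_co.FixedSection
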