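import Pool.Agent.FT4D.AllVert

/-!
# MP_6ab5c6_co, Q2 for all boxes with a side of length three or four

Any two dimer configurations of a box one of whose sides is 3 or 4 (the other two sides arbitrary, at least one
side even) are joined by a finite sequence of flips and trits.
-/

namespace Pool.Agent.Results.MP_6ab5c6_co.SidesUpToFour

open Pool.Agent.Dimer3D Pool.Agent.FT3D Pool.Agent.FT4D

theorem result : ∀ j m n : ℕ, (j = 3 ∨ m = 3 ∨ n = 3 ∨ j = 4 ∨ m = 4 ∨ n = 4) → (Even j ∨ Even m ∨ Even n) →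
    ∀ τ τ' : Set (Sym2 (ℤ × ℤ × ℤ)), IsConfig Adj3 (Box j m n) τ → IsConfig Adj3 (Box j m n) τ' →
      JoinedFT (Box j m n) τ τ' :=
  fun _ _ _ h34 h => ftConn_side all_vert (by tauto) h

end Pool.Agent.Results.MP_6ab5c6_co.SidesUpToFour
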