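import Pool.Agent.Slab3D.Main

/-!
# MP_6ab5c6_co, Q1 with a bound depending only on the smallest side of the box

Any two dimer configurations of a box with smallest side `s` are joined by swaps along alternating
cycles of length at most `C s^31`, where `C` is an absolute constant.
-/

namespace Pool.Agent.Results.MP_6ab5c6_co.SmallestSide

open Pool.Agent.Dimer3D

theorem result : ∃ C : ℕ, ∀ j m n : ℕ, ∀ τ τ' : Set (Sym2 (ℤ × ℤ × ℤ)),
    IsConfig Adj3 (Box j m n) τ → IsConfig Adj3 (Box j m n) τ' →
      Joined Adj3 (Box j m n) (C * (min j (min m n)) ^ 31) τ τ' :=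
  Pool.Agent.Slab3D.slab

end Pool.Agent.Results.MP_6ab5c6_co.SmallestSide
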